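import Pool.Agent.Y738.PE.Stm

/-!
# PE-J4b and J12: translation invariance
-/

set_option autoImplicit false

open scoped BigOperators ComplexConjugate Classical

namespace Pool.Agent.Y328.PE

open Pool.Agent.Y738.PE

/-- translation of functions on the torus -/
def sh {L : ℕ} {X : Type} (t : Site L) : (Site L → X) ≃ (Site L → X) where
  toFun s := fun w => s (w + t)
  invFun s := fun w => s (w - t)
  left_inv s := by
    funext w
    show s (w - t + t) = s w
    rw [sub_add_cancel]
  right_inv s := by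
    funext w
    show s (w + t - t) = s w
    rw [add_sub_cancel_right]

theorem sh_apply {L : ℕ} {X : Type} (t : Site L) (s : Site L → X) :
    sh t s = fun w => s (w + t) := rfl

theorem box_shift {d L : ℕ} (r : ℕ) (s : Conf d L) (v t : Site L) :
    box r s (v + t) = box r (fun w => s (w + t)) v := by
  funext p
  unfold box
  congr 1
  ext
  · show v.1 + t.1 + _ = v.1 + _ + t.1
    ring
  · show v.2 + t.2 + _ = v.2 + _ + t.2
    ring

theorem fac_shift {d L N : ℕ} (m M : ℕ) (Φ : BConf d m → ℂ) (a b : Lab N) (s : Conf d L)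
    (v t : Site L) : fac m M Φ a b s (v + t) = fac m M Φ a b (fun w => s (w + t)) v := by
  unfold fac
  rw [box_shift]

theorem shiftMain : StmShift := by
  intro d m M L _ Φ θ
  have key : ∀ (θ' : Til (m * M + 1) L) (t : Site L),
      (∀ v : Site L, θ'.1 v.1 = θ.1 (v.1 + t.1) ∧ θ'.2 v.2 = θ.2 (v.2 + t.2)) →
      nrm (glob m M Φ θ') = nrm (glob m M Φ θ) := by
    intro θ' t h
    have h1 : ∀ s : Conf d L, glob m M Φ θ' (sh t s) = glob m M Φ θ s := by
      intro s
      unfold glob
      rw [← Equiv.prod_comp (Equiv.addRight t)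
        (fun v : Site L => fac m M Φ (θ.1 v.1) (θ.2 v.2) s v)]
      refine Finset.prod_congr rfl fun v _ => ?_
      have e : (Equiv.addRight t) v = v + t := rfl
      rw [e, fac_shift, (h v).1, (h v).2, sh_apply, Prod.fst_add, Prod.snd_add]
    unfold nrm
    rw [← Equiv.sum_comp (sh t) (fun s : Conf d L => ‖glob m M Φ θ' s‖ ^ 2)]
    exact Finset.sum_congr rfl fun s _ => by rw [h1]
  constructor
  · exact key _ (1, 0) fun v => ⟨rfl, by rw [add_zero]⟩
  · exact key _ (0, 1) fun v => ⟨by rw [add_zero], rfl⟩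

theorem peps_shift {d : ℕ} {X : Type} [Fintype X] (A : Fin d → X → X → X → X → ℂ)
    (L : ℕ) [NeZero L] (a : Site L) (s : Conf d L) :
    pepsX A L (fun w => s (w + a)) = pepsX A L s := by
  unfold pepsX
  rw [← Equiv.sum_comp (sh a)]
  refine Finset.sum_congr rfl fun hor _ => ?_
  rw [← Equiv.sum_comp (sh a)]
  refine Finset.sum_congr rfl fun ver _ => ?_
  rw [← Equiv.prod_comp (Equiv.addRight a) (fun v : Site L =>
    A (s v) (hor (v.1 - 1, v.2)) (hor v) (ver (v.1, v.2 - 1)) (ver v))]
  refine Finset.prod_congr rfl fun v _ => ?_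
  have e : (Equiv.addRight a) v = v + a := rfl
  rw [e, sh_apply, sh_apply]
  have e1 : ((v.1 - 1, v.2) : Site L) + a = ((v + a).1 - 1, (v + a).2) := by
    ext
    · show v.1 - 1 + a.1 = v.1 + a.1 - 1
      ring
    · rfl
  have e2 : ((v.1, v.2 - 1) : Site L) + a = ((v + a).1, (v + a).2 - 1) := by
    ext
    · rfl
    · show v.2 - 1 + a.2 = v.2 + a.2 - 1
      ring
  show A (s (v + a)) (hor ((v.1 - 1, v.2) + a)) (hor (v + a)) (ver ((v.1, v.2 - 1) + a))
    (ver (v + a)) = _
  rw [e1, e2]

theorem pepsMain : StmPepsTI := by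
  intro d L _ X _ A r v B
  unfold expec
  rw [← Equiv.sum_comp (sh (-v))]
  refine Finset.sum_congr rfl fun s _ => Finset.sum_congr rfl fun τ _ => ?_
  have h1 : pepsX A L (sh (-v) s) = pepsX A L s := peps_shift A L (-v) s
  have h2 : box r (sh (-v) s) v = box r s 0 := by
    rw [sh_apply, ← box_shift, add_neg_cancel]
  have h3 : put (sh (-v) s) v τ = fun w => put s 0 τ (w + -v) := by
    funext w
    unfold put
    rw [sh_apply]
    simp only [← sub_eq_add_neg, Prod.fst_sub, Prod.snd_sub, Prod.fst_zero, Prod.snd_zero,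
      sub_zero]
  rw [h1, h2, h3, peps_shift]

/-- both statements -/
theorem main : StmShift ∧ StmPepsTI := ⟨shiftMain, pepsMain⟩

end Pool.Agent.Y328.PE
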